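import Mathlib

/-!
# A good cover code without a feasible path between two of its codewords

The code has 19 codewords on 9 neurons: the empty word and 18 words `c 0, …, c 17`, all of which
contain the last neuron. It is the code of an open and of a closed good cover in `ℝ¹⁸`: up to
homotopy, the sets are the subcomplexes of the order complex of the poset of the nonempty codewords
formed by the codewords which contain a given neuron. Every nonempty intersection of these
subcomplexes is contractible because it can be reduced to a point by removing dominated vertices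
one at a time.
-/

set_option autoImplicit false

namespace Pool.Agent.Results.MP_ecf9a6_co.NoFeasiblePath

open Set

/-! ### Definitions -/

/-- The code of a collection `U` of `n` subsets of `ℝ^d`: the set of all `σ` whose atom
`⋂_{i ∈ σ} U i \ ⋃_{j ∉ σ} U j` is nonempty. -/
def code {n d : ℕ} (U : Fin n → Set (Fin d → ℝ)) : Set (Finset (Fin n)) :=
  {σ | ((⋂ i ∈ σ, U i) \ ⋃ j ∈ σᶜ, U j).Nonempty}

/-- The intersection of any nonempty subcollection of `U` is empty or contractible. -/
def GoodIntersections {n d : ℕ} (U : Fin n → Set (Fin d → ℝ)) : Prop :=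
  ∀ σ : Finset (Fin n), σ.Nonempty → (⋂ i ∈ σ, U i) = ∅ ∨ ContractibleSpace ↥(⋂ i ∈ σ, U i)

/-- A good cover by open sets. -/
def IsOpenGoodCover {n d : ℕ} (U : Fin n → Set (Fin d → ℝ)) : Prop :=
  (∀ i, IsOpen (U i)) ∧ GoodIntersections U

/-- A good cover by closed sets. -/
def IsClosedGoodCover {n d : ℕ} (U : Fin n → Set (Fin d → ℝ)) : Prop :=
  (∀ i, IsClosed (U i)) ∧ GoodIntersections U

/-- `v 0, …, v k` is a feasible walk in the codeword containment graph of `C`. -/
structure IsFeasibleWalk {n : ℕ} (C : Set (Finset (Fin n))) (k : ℕ)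
    (v : Fin (k + 1) → Finset (Fin n)) : Prop where
  mem : ∀ i, v i ∈ C
  edge : ∀ i : Fin k, v i.castSucc ⊂ v i.succ ∨ v i.succ ⊂ v i.castSucc
  feasible : ∀ i m j, i < m → m < j → v i ∩ v j ⊆ v m

/-! ### Deformations -/

/-- If `X` is deformed into `A ⊆ X` along the segments from `x` to `r x`, and `A` stays in `A`,
then `X` is contractible if `A` is. -/
theorem contractible_of_deform {E : Type*} [AddCommGroup E] [Module ℝ E] [TopologicalSpace E]
    [IsTopologicalAddGroup E] [ContinuousSMul ℝ E] {A X : Set E} (hAX : A ⊆ X)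
    (r : E → E) (hr : Continuous r)
    (hX : ∀ x ∈ X, ∀ t ∈ Icc (0 : ℝ) 1, x + t • (r x - x) ∈ X)
    (hA : ∀ x ∈ A, ∀ t ∈ Icc (0 : ℝ) 1, x + t • (r x - x) ∈ A)
    (h1 : ∀ x ∈ X, r x ∈ A) (hc : ContractibleSpace A) : ContractibleSpace X := by
  have h1A : ∀ x ∈ A, r x ∈ A := fun x hx => h1 x (hAX hx)
  let f : C(X, A) := ⟨fun x => ⟨r x.1, h1 x.1 x.2⟩, by fun_prop⟩
  let g : C(A, X) := ⟨fun x => ⟨x.1, hAX x.2⟩, by fun_prop⟩
  have hgf : (g.comp f).Homotopic (ContinuousMap.id X) := by
    refine ContinuousMap.Homotopic.symm ⟨⟨⟨fun p => ⟨p.2.1 + (p.1 : ℝ) • (r p.2.1 - p.2.1),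
      hX p.2.1 p.2.2 p.1.1 p.1.2⟩, ?_⟩, ?_, ?_⟩⟩
    · fun_prop
    · intro x
      ext
      simp
    · intro x
      ext
      simp [f, g]
  have hfg : (f.comp g).Homotopic (ContinuousMap.id A) := by
    refine ContinuousMap.Homotopic.symm ⟨⟨⟨fun p => ⟨p.2.1 + (p.1 : ℝ) • (r p.2.1 - p.2.1),
      hA p.2.1 p.2.2 p.1.1 p.1.2⟩, ?_⟩, ?_, ?_⟩⟩
    · fun_prop
    · intro x
      ext
      simp
    · intro x
      ext
      simp [f, g]
  exact (⟨f, g, hgf, hfg⟩ : ContinuousMap.HomotopyEquiv X A).contractibleSpace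

/-! ### Realizations of subcomplexes -/

section Complex

variable {ι : Type} [Fintype ι] [DecidableEq ι]

/-- The points for which the coordinates in `B` form a chain contained in `S`, and some coordinate
is in `A`. -/
def T (A B : Set ℝ) (R : ι → ι → Prop) (S : Finset ι) : Set (ι → ℝ) :=
  {x | (∀ j, x j ∈ B → j ∈ S) ∧ (∀ j k, x j ∈ B → x k ∈ B → R j k) ∧ ∃ j, x j ∈ A}

/-- Reducibility to a point by removal of dominated vertices. -/
inductive Dism (R : ι → ι → Prop) : Finset ι → Prop
  | single (v : ι) : Dism R {v}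
  | step (S : Finset ι) (v w : ι) (hv : v ∈ S) (hw : w ∈ S) (hne : w ≠ v)
      (h : ∀ u ∈ S, R u v → R u w) : Dism R (S.erase v) → Dism R S

omit [Fintype ι] in
theorem seg_update (x : ι → ℝ) (w : ι) (b t : ℝ) :
    x + t • (Function.update x w b - x) = Function.update x w (x w + t * (b - x w)) := by
  funext j
  by_cases h : j = w
  · subst h; simp
  · simp [h]

omit [Fintype ι] in
/-- raising the coordinate of a dominating vertex -/
theorem raise_mem {A B : Set ℝ} (hA : IsUpperSet A) (hB : IsUpperSet B)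
    {R : ι → ι → Prop} (hrefl : ∀ j, R j j) (hsymm : ∀ j k, R j k → R k j) {S : Finset ι}
    {v w : ι} (hw : w ∈ S) (h : ∀ u ∈ S, R u v → R u w) {x : ι → ℝ} (hx : x ∈ T A B R S) {b : ℝ}
    (h1 : x w ≤ b) (h2 : b ≤ max (x w) (x v)) : Function.update x w b ∈ T A B R S := by
  obtain ⟨hx1, hx2, j0, hj0⟩ := hx
  have key : ∀ k, b ∈ B → x k ∈ B → R k w := by
    intro k hb hk
    have hb' := hB h2 hb
    rcases max_choice (x w) (x v) with hm | hm
    · rw [hm] at hb'
      exact hx2 k w hk hb'
    · rw [hm] at hb'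
      exact h k (hx1 k hk) (hx2 k v hk hb')
  refine ⟨fun j hj => ?_, fun j k hj hk => ?_, ?_⟩
  · by_cases hjw : j = w
    · rw [hjw]; exact hw
    · rw [Function.update_of_ne hjw] at hj
      exact hx1 j hj
  · by_cases hjw : j = w
    · subst hjw
      rw [Function.update_self] at hj
      by_cases hkw : k = j
      · subst hkw; exact hrefl k
      · rw [Function.update_of_ne hkw] at hk
        exact hsymm _ _ (key k hj hk)
    · rw [Function.update_of_ne hjw] at hj
      by_cases hkw : k = w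
      · subst hkw
        rw [Function.update_self] at hk
        exact key j hk hj
      · rw [Function.update_of_ne hkw] at hk
        exact hx2 j k hj hk
  · refine ⟨j0, ?_⟩
    by_cases hjw : j0 = w
    · subst hjw
      rw [Function.update_self]
      exact hA h1 hj0
    · rwa [Function.update_of_ne hjw]

omit [Fintype ι] in
/-- lowering the coordinate of a dominated vertex -/
theorem lower_mem {A B : Set ℝ} (hB : IsUpperSet B)
    {R : ι → ι → Prop} {S : Finset ι} {v w : ι} (hne : w ≠ v) {x : ι → ℝ}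
    (hx : x ∈ T A B R S) (hvw : x v ∈ A → x w ∈ A) {b : ℝ}
    (h1 : b ≤ x v) : Function.update x v b ∈ T A B R S := by
  obtain ⟨hx1, hx2, j0, hj0⟩ := hx
  have key : ∀ j, Function.update x v b j ∈ B → x j ∈ B := by
    intro j hj
    by_cases hjv : j = v
    · subst hjv
      rw [Function.update_self] at hj
      exact hB h1 hj
    · rwa [Function.update_of_ne hjv] at hj
  refine ⟨fun j hj => hx1 j (key j hj), fun j k hj hk => hx2 j k (key j hj) (key k hk), ?_⟩
  by_cases hjv : j0 = v
  · subst hjv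
    exact ⟨w, by rw [Function.update_of_ne hne]; exact hvw hj0⟩
  · exact ⟨j0, by rwa [Function.update_of_ne hjv]⟩

omit [Fintype ι] in
theorem mem_erase_iff {A B : Set ℝ} {R : ι → ι → Prop} {S : Finset ι} {v : ι}
    {x : ι → ℝ} : x ∈ T A B R (S.erase v) ↔ x ∈ T A B R S ∧ x v ∉ B := by
  constructor
  · rintro ⟨h1, h2, h3⟩
    exact ⟨⟨fun j hj => Finset.mem_of_mem_erase (h1 j hj), h2, h3⟩,
      fun hx => Finset.notMem_erase v S (h1 v hx)⟩
  · rintro ⟨⟨h1, h2, h3⟩, h4⟩
    exact ⟨fun j hj => Finset.mem_erase.2 ⟨fun h => h4 (h ▸ hj), h1 j hj⟩, h2, h3⟩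

omit [Fintype ι] in
theorem contractible_T {A B : Set ℝ} (hAB : A ⊆ B) (hA : IsUpperSet A) (hB : IsUpperSet B)
    (hAne : A.Nonempty) (hBne : (-1 : ℝ) ∉ B) {R : ι → ι → Prop} (hrefl : ∀ j, R j j)
    (hsymm : ∀ j k, R j k → R k j) {S : Finset ι} (hS : Dism R S) :
    ContractibleSpace (T A B R S) := by
  induction hS with
  | single v =>
    have hT : T A B R {v} = {x | (∀ j, j ≠ v → x j ∈ Bᶜ) ∧ x v ∈ A} := by
      ext x
      simp only [T, Set.mem_ofPred_eq, Finset.mem_singleton, Set.mem_compl_iff]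
      constructor
      · rintro ⟨h1, -, j, hj⟩
        obtain rfl := h1 j (hAB hj)
        exact ⟨fun k hk hk' => hk (h1 k hk'), hj⟩
      · rintro ⟨h1, h2⟩
        have h3 : ∀ j, x j ∈ B → j = v := fun j hj => by
          by_contra hne
          exact h1 j hne hj
        refine ⟨h3, fun j k hj hk => ?_, v, h2⟩
        rw [h3 j hj, h3 k hk]
        exact hrefl v
    rw [hT]
    have hcA : Convex ℝ A := hA.ordConnected.convex
    have hcB : Convex ℝ Bᶜ := hB.compl.ordConnected.convex
    refine Convex.contractibleSpace ?_ ?_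
    · intro x hx y hy a b ha hb hab
      exact ⟨fun j hj => hcB (hx.1 j hj) (hy.1 j hj) ha hb hab, hcA hx.2 hy.2 ha hb hab⟩
    · obtain ⟨a, ha⟩ := hAne
      refine ⟨Function.update (fun _ => -1) v a, fun j hj => ?_, ?_⟩
      · simpa [hj] using hBne
      · simpa using ha
  | step S v w hv hw hne h _ ih =>
    set A' : Set (ι → ℝ) := {x | x ∈ T A B R S ∧ (x v ∈ B → x v ≤ x w)} with hA'
    have hA'A : ∀ x ∈ A', x v ∈ A → x w ∈ A := fun x hx h1 => hA (hx.2 (hAB h1)) h1
    have ih2 : ContractibleSpace A' := by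
      have hd : ∀ x ∈ A', ∀ b, b ≤ x v → Function.update x v b ∈ A' := by
        intro x hx b hb
        refine ⟨lower_mem hB hne hx.1 (hA'A x hx) hb, fun hy => ?_⟩
        rw [Function.update_self] at hy
        rw [Function.update_self, Function.update_of_ne hne]
        exact hb.trans (hx.2 (hB hb hy))
      refine contractible_of_deform (A := T A B R (S.erase v)) ?_
        (fun x => Function.update x v (min (x v) (-1))) ?_ ?_ ?_ ?_ ih
      · intro x hx
        rw [mem_erase_iff] at hx
        exact ⟨hx.1, fun h => absurd h hx.2⟩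
      · exact continuous_id.update v (by fun_prop)
      · intro x hx t ht
        rw [seg_update]
        refine hd x hx _ ?_
        have := min_le_left (x v) (-1)
        nlinarith [ht.1, ht.2]
      · intro x hx t ht
        rw [seg_update]
        rw [mem_erase_iff] at hx
        have hb : x v + t * (min (x v) (-1) - x v) ≤ x v := by
          have := min_le_left (x v) (-1)
          nlinarith [ht.1, ht.2]
        rw [mem_erase_iff, Function.update_self]
        exact ⟨lower_mem hB hne hx.1 (fun h => absurd (hAB h) hx.2) hb, fun h => hx.2 (hB hb h)⟩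
      · intro x hx
        rw [mem_erase_iff, Function.update_self]
        exact ⟨lower_mem hB hne hx.1 (hA'A x hx) (min_le_left _ _),
          fun h => hBne (hB (min_le_right _ _) h)⟩
    have hu : ∀ x ∈ T A B R S, ∀ t ∈ Icc (0 : ℝ) 1,
        Function.update x w (x w + t * (max (x w) (x v) - x w)) ∈ T A B R S := by
      intro x hx t ht
      have := le_max_left (x w) (x v)
      exact raise_mem hA hB hrefl hsymm hw h hx (by nlinarith [ht.1, ht.2])
        (by nlinarith [ht.1, ht.2])
    refine contractible_of_deform (A := A') ?_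
        (fun x => Function.update x w (max (x w) (x v))) ?_ ?_ ?_ ?_ ih2
    · exact fun x hx => hx.1
    · exact continuous_id.update w (by fun_prop)
    · intro x hx t ht
      rw [seg_update]
      exact hu x hx t ht
    · intro x hx t ht
      rw [seg_update]
      refine ⟨hu x hx.1 t ht, fun hy => ?_⟩
      rw [Function.update_of_ne hne.symm] at hy
      rw [Function.update_of_ne hne.symm, Function.update_self]
      have := hx.2 hy
      have := le_max_left (x w) (x v)
      nlinarith [ht.1, ht.2]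
    · intro x hx
      refine ⟨?_, fun _ => ?_⟩
      · have := hu x hx 1 ⟨zero_le_one, le_rfl⟩
        rwa [one_mul, add_sub_cancel] at this
      · rw [Function.update_of_ne hne.symm, Function.update_self]
        exact le_max_right _ _

end Complex

/-! ### The closed and the open cover attached to a set of codewords -/

section Covers

variable {d n : ℕ}

/-- Two indices are comparable if their codewords are. -/
def Rel (c : Fin d → Finset (Fin n)) (j k : Fin d) : Prop := c j ⊆ c k ∨ c k ⊆ c j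

/-- The codewords which contain `σ`. -/
def up (c : Fin d → Finset (Fin n)) (σ : Finset (Fin n)) : Finset (Fin d) :=
  Finset.univ.filter fun j => σ ⊆ c j

theorem mem_up {c : Fin d → Finset (Fin n)} {σ : Finset (Fin n)} {j : Fin d} :
    j ∈ up c σ ↔ σ ⊆ c j := by simp [up]

/-- The closed sets. -/
def Uc (c : Fin d → Finset (Fin n)) (i : Fin n) : Set (Fin d → ℝ) :=
  T (Ici 1) (Ioi 0) (Rel c) (up c {i})

/-- The open sets. -/
def Uo (c : Fin d → Finset (Fin n)) (i : Fin n) : Set (Fin d → ℝ) :=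
  {x | (∀ j k, x j ∈ Ici (0 : ℝ) → x k ∈ Ici (0 : ℝ) → Rel c j k) ∧
    ∃ j, i ∈ c j ∧ x j ∈ Ioi (0 : ℝ)}

theorem isClosed_Uc (c : Fin d → Finset (Fin n)) (i : Fin n) : IsClosed (Uc c i) := by
  have h1 : IsClosed {x : Fin d → ℝ | ∀ j, x j ∈ Ioi (0 : ℝ) → j ∈ up c {i}} := by
    have : {x : Fin d → ℝ | ∀ j, x j ∈ Ioi (0 : ℝ) → j ∈ up c {i}} =
        ⋂ j, {x | x j ≤ 0 ∨ j ∈ up c {i}} := by
      ext x
      simp only [Set.mem_ofPred_eq, Set.mem_iInter, Set.mem_Ioi]
      refine forall_congr' fun j => ?_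
      rw [← not_lt]
      tauto
    rw [this]
    refine isClosed_iInter fun j => ?_
    exact (isClosed_le (continuous_apply j) continuous_const).union isClosed_const
  have h2 : IsClosed {x : Fin d → ℝ | ∀ j k, x j ∈ Ioi (0 : ℝ) → x k ∈ Ioi (0 : ℝ) →
      Rel c j k} := by
    have : {x : Fin d → ℝ | ∀ j k, x j ∈ Ioi (0 : ℝ) → x k ∈ Ioi (0 : ℝ) → Rel c j k} =
        ⋂ j, ⋂ k, {x | x j ≤ 0 ∨ x k ≤ 0 ∨ Rel c j k} := by
      ext x
      simp only [Set.mem_ofPred_eq, Set.mem_iInter, Set.mem_Ioi]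
      refine forall_congr' fun j => forall_congr' fun k => ?_
      rw [imp_iff_not_or, imp_iff_not_or, not_lt, not_lt]
    rw [this]
    refine isClosed_iInter fun j => isClosed_iInter fun k => ?_
    exact (isClosed_le (continuous_apply j) continuous_const).union
      ((isClosed_le (continuous_apply k) continuous_const).union isClosed_const)
  have h3 : IsClosed {x : Fin d → ℝ | ∃ j, x j ∈ Ici (1 : ℝ)} := by
    have : {x : Fin d → ℝ | ∃ j, x j ∈ Ici (1 : ℝ)} = ⋃ j, {x | 1 ≤ x j} := by
      ext x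
      simp
    rw [this]
    exact isClosed_iUnion_of_finite fun j => isClosed_le continuous_const (continuous_apply j)
  exact h1.inter (h2.inter h3)

theorem isOpen_Uo (c : Fin d → Finset (Fin n)) (i : Fin n) : IsOpen (Uo c i) := by
  have h2 : IsOpen {x : Fin d → ℝ | ∀ j k, x j ∈ Ici (0 : ℝ) → x k ∈ Ici (0 : ℝ) →
      Rel c j k} := by
    have : {x : Fin d → ℝ | ∀ j k, x j ∈ Ici (0 : ℝ) → x k ∈ Ici (0 : ℝ) → Rel c j k} =
        ⋂ j, ⋂ k, {x | x j < 0 ∨ x k < 0 ∨ Rel c j k} := by
      ext x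
      simp only [Set.mem_ofPred_eq, Set.mem_iInter, Set.mem_Ici]
      refine forall_congr' fun j => forall_congr' fun k => ?_
      rw [imp_iff_not_or, imp_iff_not_or, not_le, not_le]
    rw [this]
    refine isOpen_iInter_of_finite fun j => isOpen_iInter_of_finite fun k => ?_
    exact (isOpen_lt (continuous_apply j) continuous_const).union
      ((isOpen_lt (continuous_apply k) continuous_const).union isOpen_const)
  have h3 : IsOpen {x : Fin d → ℝ | ∃ j, i ∈ c j ∧ x j ∈ Ioi (0 : ℝ)} := by
    have : {x : Fin d → ℝ | ∃ j, i ∈ c j ∧ x j ∈ Ioi (0 : ℝ)} =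
        ⋃ j, {x | i ∈ c j ∧ 0 < x j} := by
      ext x
      simp
    rw [this]
    exact isOpen_iUnion fun j => isOpen_const.inter
      (isOpen_lt continuous_const (continuous_apply j))
  exact h2.inter h3

theorem rel_refl (c : Fin d → Finset (Fin n)) (j : Fin d) : Rel c j j := Or.inl subset_rfl

theorem rel_symm (c : Fin d → Finset (Fin n)) (j k : Fin d) (h : Rel c j k) : Rel c k j := h.symm

theorem inter_Uc (c : Fin d → Finset (Fin n)) {σ : Finset (Fin n)} (hσ : σ.Nonempty) :
    (⋂ i ∈ σ, Uc c i) = T (Ici 1) (Ioi 0) (Rel c) (up c σ) := by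
  ext x
  simp only [Set.mem_iInter]
  constructor
  · intro h
    obtain ⟨i, hi⟩ := hσ
    refine ⟨fun j hj => ?_, (h i hi).2.1, (h i hi).2.2⟩
    rw [mem_up]
    intro k hk
    have := (h k hk).1 j hj
    rwa [mem_up, Finset.singleton_subset_iff] at this
  · rintro ⟨h1, h2, h3⟩ i hi
    refine ⟨fun j hj => ?_, h2, h3⟩
    have := h1 j hj
    rw [mem_up] at this ⊢
    exact Finset.singleton_subset_iff.2 (this hi)

/-- The largest codeword among the positive coordinates. -/
theorem exists_max (c : Fin d → Finset (Fin n)) {P : Fin d → Prop} (hne : ∃ j, P j)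
    (hch : ∀ j k, P j → P k → Rel c j k) : ∃ j, P j ∧ ∀ k, P k → c k ⊆ c j := by
  classical
  obtain ⟨j0, hj0⟩ := hne
  obtain ⟨j, hj, hmax⟩ := Finset.exists_max_image (Finset.univ.filter P) (fun j => (c j).card)
    ⟨j0, by simpa using hj0⟩
  simp only [Finset.mem_filter, Finset.mem_univ, true_and] at hj hmax
  refine ⟨j, hj, fun k hk => ?_⟩
  rcases hch j k hj hk with h | h
  · rw [Finset.eq_of_subset_of_card_le h (hmax k hk)]
  · exact h

/-- The smallest codeword among the positive coordinates. -/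
theorem exists_min (c : Fin d → Finset (Fin n)) {P : Fin d → Prop} (hne : ∃ j, P j)
    (hch : ∀ j k, P j → P k → Rel c j k) : ∃ j, P j ∧ ∀ k, P k → c j ⊆ c k := by
  classical
  obtain ⟨j0, hj0⟩ := hne
  obtain ⟨j, hj, hmin⟩ := Finset.exists_min_image (Finset.univ.filter P) (fun j => (c j).card)
    ⟨j0, by simpa using hj0⟩
  simp only [Finset.mem_filter, Finset.mem_univ, true_and] at hj hmin
  refine ⟨j, hj, fun k hk => ?_⟩
  rcases hch j k hj hk with h | h
  · exact h
  · rw [Finset.eq_of_subset_of_card_le h (hmin k hk)]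

/-- intersections of the open sets -/
def To (c : Fin d → Finset (Fin n)) (S : Finset (Fin d)) : Set (Fin d → ℝ) :=
  {x | (∀ j k, x j ∈ Ici (0 : ℝ) → x k ∈ Ici (0 : ℝ) → Rel c j k) ∧
    ∃ j ∈ S, x j ∈ Ioi (0 : ℝ)}

theorem inter_Uo (c : Fin d → Finset (Fin n)) {σ : Finset (Fin n)} (hσ : σ.Nonempty) :
    (⋂ i ∈ σ, Uo c i) = To c (up c σ) := by
  ext x
  simp only [Set.mem_iInter]
  constructor
  · intro h
    obtain ⟨i, hi⟩ := hσ
    have hch := (h i hi).1
    obtain ⟨j0, -, hj0⟩ := (h i hi).2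
    obtain ⟨j, hj, hmax⟩ := exists_max c (P := fun j => x j ∈ Ioi (0 : ℝ)) ⟨j0, hj0⟩
      (fun j k hj hk => hch j k (Ioi_subset_Ici_self hj) (Ioi_subset_Ici_self hk))
    refine ⟨hch, j, ?_, hj⟩
    rw [mem_up]
    intro k hk
    obtain ⟨l, hl, hl'⟩ := (h k hk).2
    exact hmax l hl' hl
  · rintro ⟨h1, j, hj, hj'⟩ i hi
    rw [mem_up] at hj
    exact ⟨h1, j, hj hi, hj'⟩

theorem contractible_To {c : Fin d → Finset (Fin n)} {S : Finset (Fin d)}
    (h : ContractibleSpace (T (Ioi 0) (Ici 0) (Rel c) S)) : ContractibleSpace (To c S) := by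
  classical
  set r : (Fin d → ℝ) → (Fin d → ℝ) := fun x j => if j ∈ S then x j else min (x j) (-1) with hr
  have key : ∀ x : Fin d → ℝ, ∀ t ∈ Icc (0 : ℝ) 1, ∀ j, (x + t • (r x - x)) j ≤ x j := by
    intro x t ht j
    have : r x j ≤ x j := by
      simp only [hr]
      split_ifs
      · exact le_rfl
      · exact min_le_left _ _
    simp only [Pi.add_apply, Pi.smul_apply, Pi.sub_apply, smul_eq_mul]
    nlinarith [ht.1, ht.2]
  have key2 : ∀ x : Fin d → ℝ, ∀ t ∈ Icc (0 : ℝ) 1, ∀ j ∈ S, (x + t • (r x - x)) j = x j := by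
    intro x t ht j hj
    simp [hr, hj]
  have key3 : ∀ x : Fin d → ℝ, ∀ t ∈ Icc (0 : ℝ) 1, ∀ j, (x + t • (r x - x)) j ∈ Ici (0 : ℝ) →
      x j ∈ Ici (0 : ℝ) := fun x t ht j hj => le_trans hj (key x t ht j)
  refine contractible_of_deform (A := T (Ioi 0) (Ici 0) (Rel c) S) ?_ r ?_ ?_ ?_ ?_ h
  · rintro x ⟨h1, h2, j, hj⟩
    exact ⟨h2, j, h1 j (Ioi_subset_Ici_self hj), hj⟩
  · refine continuous_pi fun j => ?_
    simp only [hr]
    split_ifs <;> fun_prop
  · rintro x ⟨h1, j, hj, hj'⟩ t ht
    refine ⟨fun k l hk hl => h1 k l (key3 x t ht k hk) (key3 x t ht l hl), j, hj, ?_⟩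
    rw [key2 x t ht j hj]
    exact hj'
  · rintro x ⟨h1, h2, j, hj⟩ t ht
    refine ⟨fun k hk => h1 k (key3 x t ht k hk),
      fun k l hk hl => h2 k l (key3 x t ht k hk) (key3 x t ht l hl), j, ?_⟩
    rw [key2 x t ht j (h1 j (Ioi_subset_Ici_self hj))]
    exact hj
  · rintro x ⟨h1, j, hj, hj'⟩
    have e : r x = x + (1 : ℝ) • (r x - x) := by rw [one_smul, add_sub_cancel]
    have k3 := key3 x 1 ⟨zero_le_one, le_rfl⟩
    rw [← e] at k3
    refine ⟨fun k hk => ?_, fun k l hk hl => h1 k l (k3 k hk) (k3 l hl), j, ?_⟩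
    · by_contra hkS
      simp only [hr, if_neg hkS, Set.mem_Ici] at hk
      have := min_le_right (x k) (-1)
      linarith
    · simp only [hr, if_pos hj]
      exact hj'

theorem T_empty {A B : Set ℝ} (hAB : A ⊆ B) (R : Fin d → Fin d → Prop) : T A B R ∅ = ∅ := by
  ext x
  simp only [Set.mem_empty_iff_false, iff_false]
  rintro ⟨h1, -, j, hj⟩
  exact absurd (h1 j (hAB hj)) (Finset.notMem_empty j)

theorem Ici_one_subset : Ici (1 : ℝ) ⊆ Ioi 0 := fun _ hx =>
  Set.mem_Ioi.2 (lt_of_lt_of_le one_pos (Set.mem_Ici.1 hx))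

theorem closed_goodCover (c : Fin d → Finset (Fin n))
    (h : ∀ σ : Finset (Fin n), σ.Nonempty → up c σ = ∅ ∨ Dism (Rel c) (up c σ)) :
    IsClosedGoodCover (Uc c) := by
  refine ⟨isClosed_Uc c, fun σ hσ => ?_⟩
  rw [inter_Uc c hσ]
  rcases h σ hσ with h | h
  · left
    rw [h]
    exact T_empty (fun x hx => Ici_one_subset hx) _
  · right
    exact contractible_T Ici_one_subset (isUpperSet_Ici 1)
      (isUpperSet_Ioi 0) ⟨1, Set.mem_Ici.2 le_rfl⟩ (by simp) (rel_refl c) (rel_symm c) h

theorem open_goodCover (c : Fin d → Finset (Fin n))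
    (h : ∀ σ : Finset (Fin n), σ.Nonempty → up c σ = ∅ ∨ Dism (Rel c) (up c σ)) :
    IsOpenGoodCover (Uo c) := by
  refine ⟨isOpen_Uo c, fun σ hσ => ?_⟩
  rw [inter_Uo c hσ]
  rcases h σ hσ with h | h
  · left
    rw [h]
    ext x
    simp [To]
  · right
    exact contractible_To (contractible_T Ioi_subset_Ici_self (isUpperSet_Ioi 0)
      (isUpperSet_Ici 0) ⟨1, Set.mem_Ioi.2 one_pos⟩ (by simp) (rel_refl c) (rel_symm c) h)

theorem code_Uc (c : Fin d → Finset (Fin n)) : code (Uc c) = insert ∅ (Set.range c) := by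
  ext σ
  simp only [code, Set.mem_ofPred_eq, Set.mem_insert_iff, Set.mem_range]
  constructor
  · rintro ⟨x, hx1, hx2⟩
    simp only [Set.mem_iInter, Set.mem_iUnion, Finset.mem_compl, not_exists] at hx1 hx2
    rcases σ.eq_empty_or_nonempty with h | ⟨i, hi⟩
    · exact Or.inl h
    · right
      obtain ⟨-, h2, j0, hj0⟩ := hx1 i hi
      have hj0' : x j0 ∈ Ioi (0 : ℝ) := Ici_one_subset hj0
      obtain ⟨j, hj, hmin⟩ := exists_min c (P := fun j => x j ∈ Ioi (0 : ℝ)) ⟨j0, hj0'⟩ h2
      refine ⟨j, ?_⟩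
      ext k
      constructor
      · intro hk
        by_contra hkσ
        refine hx2 k hkσ ⟨fun l hl => ?_, h2, j0, hj0⟩
        rw [mem_up, Finset.singleton_subset_iff]
        exact hmin l hl hk
      · intro hk
        have := (hx1 k hk).1 j hj
        rwa [mem_up, Finset.singleton_subset_iff] at this
  · rintro (rfl | ⟨j, rfl⟩)
    · refine ⟨fun _ => -1, by simp, ?_⟩
      simp only [Set.mem_iUnion, not_exists]
      rintro i - ⟨-, -, j, hj⟩
      norm_num at hj
    · refine ⟨Function.update (fun _ => -1) j 1, ?_, ?_⟩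
      · simp only [Set.mem_iInter]
        intro i hi
        have h1 : ∀ k, Function.update (fun _ => (-1 : ℝ)) j 1 k ∈ Ioi (0 : ℝ) → k = j := by
          intro k hk
          by_contra hkj
          rw [Function.update_of_ne hkj] at hk
          norm_num at hk
        refine ⟨fun k hk => ?_, fun k l hk hl => ?_, j, by simp⟩
        · rw [h1 k hk, mem_up, Finset.singleton_subset_iff]
          exact hi
        · rw [h1 k hk, h1 l hl]
          exact rel_refl c j
      · simp only [Set.mem_iUnion, not_exists, Finset.mem_compl]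
        rintro i hi ⟨h1, -, -⟩
        have := h1 j (by simp)
        rw [mem_up, Finset.singleton_subset_iff] at this
        exact hi this

theorem code_Uo (c : Fin d → Finset (Fin n)) : code (Uo c) = insert ∅ (Set.range c) := by
  ext σ
  simp only [code, Set.mem_ofPred_eq, Set.mem_insert_iff, Set.mem_range]
  constructor
  · rintro ⟨x, hx1, hx2⟩
    simp only [Set.mem_iInter, Set.mem_iUnion, Finset.mem_compl, not_exists] at hx1 hx2
    rcases σ.eq_empty_or_nonempty with h | ⟨i, hi⟩
    · exact Or.inl h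
    · right
      obtain ⟨h2, j0, -, hj0⟩ := hx1 i hi
      obtain ⟨j, hj, hmax⟩ := exists_max c (P := fun j => x j ∈ Ioi (0 : ℝ)) ⟨j0, hj0⟩
        (fun j k hj hk => h2 j k (Ioi_subset_Ici_self hj) (Ioi_subset_Ici_self hk))
      refine ⟨j, ?_⟩
      ext k
      constructor
      · intro hk
        by_contra hkσ
        exact hx2 k hkσ ⟨h2, j, hk, hj⟩
      · intro hk
        obtain ⟨-, l, hl, hl'⟩ := hx1 k hk
        exact hmax l hl' hl
  · rintro (rfl | ⟨j, rfl⟩)
    · refine ⟨fun _ => -1, by simp, ?_⟩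
      simp only [Set.mem_iUnion, not_exists]
      rintro i - ⟨-, j, -, hj⟩
      norm_num at hj
    · have h1 : ∀ k, Function.update (fun _ => (-1 : ℝ)) j 1 k ∈ Ici (0 : ℝ) → k = j := by
        intro k hk
        by_contra hkj
        rw [Function.update_of_ne hkj] at hk
        norm_num at hk
      refine ⟨Function.update (fun _ => -1) j 1, ?_, ?_⟩
      · simp only [Set.mem_iInter]
        intro i hi
        refine ⟨fun k l hk hl => ?_, j, hi, by simp⟩
        rw [h1 k hk, h1 l hl]
        exact rel_refl c j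
      · simp only [Set.mem_iUnion, not_exists, Finset.mem_compl]
        rintro i hi ⟨-, k, hk, hk'⟩
        rw [h1 k (Ioi_subset_Ici_self hk')] at hk
        exact hi hk

end Covers

/-! ### The code -/

/-- The 18 nonempty codewords. -/
def c : Fin 18 → Finset (Fin 9) :=
  ![{0, 8}, {2, 8}, {7, 8}, {2, 4, 8}, {0, 5, 8}, {0, 6, 8}, {0, 7, 8}, {4, 7, 8}, {5, 7, 8},
    {1, 2, 3, 8}, {0, 5, 6, 8}, {1, 2, 7, 8}, {2, 6, 7, 8}, {1, 2, 3, 4, 8}, {0, 4, 5, 7, 8},
    {2, 4, 6, 7, 8}, {1, 2, 3, 5, 7, 8}, {0, 1, 2, 6, 7, 8}]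

/-- Bit `k` of `nb j` says whether `c j` and `c k` are comparable. -/
def nb : Fin 18 → ℕ :=
  ![148593, 244234, 252356, 40970, 17425, 132129, 147525, 49284, 82180, 74242, 1073, 198662,
    167942, 8714, 16853, 37006, 68358, 137319]

/-- Bit `j` of `col i` says whether `c j` contains `i`. -/
def col : Fin 9 → ℕ :=
  ![148593, 207360, 244234, 74240, 57480, 83216, 168992, 252356, 262143]

/-- The intersections of the sets given by `col`. -/
def masks : List ℕ :=
  [0, 1024, 8192, 16384, 17424, 32768, 40968, 49280, 57480, 65536, 74240, 82176, 83216, 131072,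
    132128, 147520, 148593, 167936, 168992, 198656, 207360, 235520, 244234, 252356, 262143]

theorem nb_spec : ∀ j k : Fin 18, (nb j).testBit k = decide (c k ⊆ c j ∨ c j ⊆ c k) := by
  decide +kernel

theorem col_spec : ∀ (i : Fin 9) (j : Fin 18), (col i).testBit j = decide (i ∈ c j) := by
  decide +kernel

/-- The set with bit mask `m`. -/
def toF (m : ℕ) : Finset (Fin 18) := Finset.univ.filter fun j => m.testBit j = true

theorem mem_toF {m : ℕ} {j : Fin 18} : j ∈ toF m ↔ m.testBit j = true := by simp [toF]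

/-- Greedy removal of dominated vertices. -/
def dismB : ℕ → ℕ → Bool
  | 0, _ => false
  | fuel + 1, m => ((List.finRange 18).any fun v => m == 2 ^ v.val) ||
      ((List.finRange 18).any fun v => m.testBit v && ((List.finRange 18).any fun w =>
        m.testBit w && !(v == w) && ((m &&& nb v) &&& nb w == m &&& nb v) &&
          dismB fuel (m ^^^ 2 ^ v.val)))

theorem dismB_sound (fuel : ℕ) : ∀ m, dismB fuel m = true → Dism (Rel c) (toF m) := by
  induction fuel with
  | zero => intro m h; simp [dismB] at h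
  | succ fuel ih =>
    intro m h
    simp only [dismB, Bool.or_eq_true, List.any_eq_true, List.mem_finRange, true_and,
      Bool.and_eq_true, beq_iff_eq, Bool.not_eq_true', beq_eq_false_iff_ne] at h
    rcases h with ⟨v, hv⟩ | ⟨v, hv, w, ⟨⟨hw, hne⟩, hdom⟩, hrec⟩
    · have : toF m = {v} := by
        ext j
        rw [mem_toF, hv, Nat.testBit_two_pow, Finset.mem_singleton]
        simp [Fin.ext_iff, eq_comm]
      rw [this]
      exact Dism.single v
    · refine Dism.step _ v w (mem_toF.2 hv) (mem_toF.2 hw) (Ne.symm hne) ?_ ?_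
      · intro u hu huv
        rw [mem_toF] at hu
        have h1 : (nb v).testBit u = true := by
          rw [nb_spec]
          exact decide_eq_true huv
        have h2 : (m &&& nb v).testBit u = true := by
          rw [Nat.testBit_and, hu, h1]; rfl
        rw [← hdom, Nat.testBit_and] at h2
        have h3 : (nb w).testBit u = true := by
          revert h2
          cases (nb w).testBit u <;> simp
        rw [nb_spec, decide_eq_true_eq] at h3
        exact h3
      · have : (toF m).erase v = toF (m ^^^ 2 ^ v.val) := by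
          ext j
          rw [Finset.mem_erase, mem_toF, mem_toF, Nat.testBit_xor, Nat.testBit_two_pow]
          by_cases hjv : j = v
          · subst hjv
            simp [hv]
          · have : (v : ℕ) ≠ j := fun h => hjv (Fin.ext h.symm)
            simp [hjv, this]
        rw [this]
        exact ih _ hrec

theorem masks_dism : ∀ m ∈ masks, m = 0 ∨ dismB 18 m = true := by
  decide +kernel

theorem masks_col : ∀ i, col i ∈ masks := by
  decide +kernel

theorem masks_inter : ∀ m ∈ masks, ∀ i, m &&& col i ∈ masks := by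
  decide +kernel

theorem up_insert (i : Fin 9) (σ : Finset (Fin 9)) (m : ℕ) (h : up c σ = toF m) :
    up c (insert i σ) = toF (m &&& col i) := by
  ext j
  have h1 : j ∈ up c σ ↔ j ∈ toF m := by rw [h]
  rw [mem_up, mem_toF] at h1
  rw [mem_up, mem_toF, Nat.testBit_and, Finset.insert_subset_iff, h1, col_spec]
  simp [and_comm]

theorem up_mask (σ : Finset (Fin 9)) : σ = ∅ ∨ ∃ m ∈ masks, up c σ = toF m := by
  induction σ using Finset.induction_on with
  | empty => exact Or.inl rfl
  | insert i σ _ ih =>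
    right
    rcases ih with rfl | ⟨m, hm, hm'⟩
    · refine ⟨col i, masks_col i, ?_⟩
      ext j
      rw [mem_up, mem_toF, col_spec]
      simp
    · exact ⟨m &&& col i, masks_inter m hm i, up_insert i σ m hm'⟩

theorem up_good (σ : Finset (Fin 9)) (hσ : σ.Nonempty) :
    up c σ = ∅ ∨ Dism (Rel c) (up c σ) := by
  rcases up_mask σ with h | ⟨m, hm, h⟩
  · exact absurd h hσ.ne_empty
  · rw [h]
    rcases masks_dism m hm with rfl | h'
    · left
      ext j
      simp [mem_toF]
    · exact Or.inr (dismB_sound 18 m h')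

/-! ### No feasible walk -/

/-- In a feasible walk from `c 10 = {0, 5, 6, 8}`, the neurons in `drop j` have been met and left
again when the walk is at `c j`. -/
def drop : Fin 18 → Finset (Fin 9) :=
  ![{5, 6}, {0, 1, 5, 6, 7}, {0, 5, 6}, {0, 1, 5, 6, 7}, {6}, {5}, {5, 6}, {0, 5, 6}, {0, 4, 6},
    {0, 4, 5, 6, 7}, ∅, {0, 5, 6}, {0, 1, 5}, ∅, {6}, {0, 1, 5}, {0, 4, 6}, {5}]

theorem drop_spec : ∀ j k : Fin 18, j ≠ 13 → (c j ⊂ c k ∨ c k ⊂ c j) → Disjoint (c k) (drop j) →
    k ≠ 13 ∧ drop k ⊆ drop j ∪ (c j \ c k) := by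
  decide +kernel

theorem no_walk (k : ℕ) (v : Fin (k + 1) → Finset (Fin 9))
    (hv : IsFeasibleWalk (insert ∅ (Set.range c)) k v) (h0 : v 0 = c 10)
    (h1 : v (Fin.last k) = c 13) : False := by
  have h8 : ∀ i, (8 : Fin 9) ∈ v i := by
    intro i
    rcases (Fin.zero_le i).eq_or_lt with h | h
    · rw [← h, h0]; decide
    · rcases (Fin.le_last i).eq_or_lt with h' | h'
      · rw [h', h1]; decide
      · refine hv.feasible 0 i (Fin.last k) h h' ?_
        rw [h0, h1]
        decide
  have hc : ∀ i, ∃ j, v i = c j := by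
    intro i
    rcases hv.mem i with h | ⟨j, hj⟩
    · exact absurd (h8 i) (by rw [h]; simp)
    · exact ⟨j, hj.symm⟩
  have key : ∀ m : ℕ, ∀ hm : m < k + 1, ∃ j : Fin 18, j ≠ 13 ∧ v ⟨m, hm⟩ = c j ∧
      ∀ i ∈ drop j, ∃ m' : Fin (k + 1), m' < ⟨m, hm⟩ ∧ i ∈ v m' ∧ i ∉ v ⟨m, hm⟩ := by
    intro m
    induction m with
    | zero =>
      intro hm
      exact ⟨10, by decide, h0, fun i hi => absurd hi (by revert i; decide)⟩
    | succ m ih =>
      intro hm
      obtain ⟨j, hj, hvj, hdrop⟩ := ih (by omega)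
      obtain ⟨l, hl⟩ := hc ⟨m + 1, hm⟩
      have hedge := hv.edge ⟨m, by omega⟩
      have hlt : (⟨m, by omega⟩ : Fin (k + 1)) < ⟨m + 1, hm⟩ := by simp
      change v ⟨m, _⟩ ⊂ v ⟨m + 1, _⟩ ∨ v ⟨m + 1, _⟩ ⊂ v ⟨m, _⟩ at hedge
      rw [hvj, hl] at hedge
      have hnot : ∀ i ∈ drop j, i ∉ c l := by
        intro i hi hil
        obtain ⟨m', hm', hi1, hi2⟩ := hdrop i hi
        refine hi2 (hv.feasible m' _ ⟨m + 1, hm⟩ hm' hlt (Finset.mem_inter.2 ⟨hi1, ?_⟩))
        rw [hl]
        exact hil
      have hdisj : Disjoint (c l) (drop j) := by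
        rw [Finset.disjoint_right]
        exact fun i hi => hnot i hi
      obtain ⟨hl13, hsub⟩ := drop_spec j l hj hedge hdisj
      refine ⟨l, hl13, hl, fun i hi => ?_⟩
      rcases Finset.mem_union.1 (hsub hi) with h | h
      · obtain ⟨m', hm', hi1, -⟩ := hdrop i h
        exact ⟨m', hm'.trans hlt, hi1, by rw [hl]; exact hnot i h⟩
      · rw [Finset.mem_sdiff] at h
        exact ⟨⟨m, by omega⟩, hlt, by rw [hvj]; exact h.1, by rw [hl]; exact h.2⟩
  obtain ⟨j, hj, hvj, -⟩ := key k (by omega)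
  have h13 : c j = c 13 := by
    rw [← hvj, ← h1]
    rfl
  have hinj : ∀ j, c j = c 13 → j = 13 := by decide +kernel
  exact hj (hinj j h13)

/-- There is a code which is the code of an open good cover and the code of a closed good cover,
and which has two codewords that are not joined by a feasible walk. -/
theorem result : ∃ (n : ℕ) (C : Set (Finset (Fin n))),
    (∃ (d : ℕ) (U : Fin n → Set (Fin d → ℝ)), IsOpenGoodCover U ∧ code U = C) ∧
    (∃ (d : ℕ) (U : Fin n → Set (Fin d → ℝ)), IsClosedGoodCover U ∧ code U = C) ∧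
    ∃ σ ∈ C, ∃ τ ∈ C, σ ≠ τ ∧
      ¬ ∃ (k : ℕ) (v : Fin (k + 1) → Finset (Fin n)),
        IsFeasibleWalk C k v ∧ v 0 = σ ∧ v (Fin.last k) = τ := by
  refine ⟨9, insert ∅ (Set.range c), ⟨18, Uo c, open_goodCover c up_good, code_Uo c⟩,
    ⟨18, Uc c, closed_goodCover c up_good, code_Uc c⟩, c 10, Or.inr ⟨10, rfl⟩, c 13,
    Or.inr ⟨13, rfl⟩, by decide, ?_⟩
  rintro ⟨k, v, hv, h0, h1⟩
  exact no_walk k v hv h0 h1

end Pool.Agent.Results.MP_ecf9a6_co.NoFeasiblePath
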